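import Pool.Agent.N728.QG.Def
import Pool.Agent.N728.QN.Def

set_option autoImplicit false

/-! # Project QH (helper728): the range `T ≤ K B` without loss of logarithms.

The divisors of `M` in the windows `j` and `j - R` are compared: the bilinear sums over `u ≤ T`, `v ≤ Y` and over
`u ≤ T / ρ ^ R`, `v ≤ Y ρ ^ R` are asymptotically equal, and in the second one the moduli `u` are below the level of the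
Bombieri-Vinogradov theorem. -/

namespace Pool.Agent.N728.QG

open Finset MeasureTheory Pool.Agent.N728.QL

noncomputable section

/-- the windows of the divisors of `M` and their translates by `R` -/
def WnR (ρ : ℝ) (M R : ℕ) : Finset ℕ := Wn ρ M ∪ (Wn ρ M).image (fun j => j + R)

/-- the divisors in the window `j - R` -/
def DvR (ρ : ℝ) (M j R : ℕ) : Finset ℕ := if R ≤ j then Dv ρ M (j - R) else ∅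

/-- the bad pairs, real `T` -/
def Badr (T : ℝ) (w y M0 : ℕ) (ρ : ℝ) (u v : ℕ) : Prop :=
  (∃ p : ℕ, p.Prime ∧ w < p ∧ p ≤ y ∧ p ^ 2 ∣ u * v) ∨ M0 < pp w y (u * v) ∨ T < ρ * u

def AAr (N : ℕ → ℝ) (w y : ℕ) (ρ T Y : ℝ) (M j : ℕ) : ℝ :=
  ∑ x ∈ Icc 1 ⌊T / ρ ^ (j + 1)⌋₊, ∑ t ∈ Icc 1 ⌊Y * ρ ^ (j + 1) / M⌋₊, rg w y x * rg w y t * N (M * x * t)

def DDr (φ φ' : ℕ → ℕ → ℝ) (N : ℕ → ℝ) (w y : ℕ) (ρ T Y : ℝ) (M j R : ℕ) : ℝ :=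
  ∑ x ∈ Icc 1 ⌊T / ρ ^ (j + 1)⌋₊, ∑ t ∈ Icc 1 ⌊Y * ρ ^ (j + 1) / M⌋₊, rg w y x * rg w y t * N (M * x * t) *
    (∑ m ∈ Dv ρ M j, φ (m * x) (M / m * t) - ∑ m ∈ DvR ρ M j R, φ' (m * x) (M / m * t)) ^ 2

open Classical in
/-- ORBS. The orbit argument with a shift by `R` windows. -/
def S_ORBS : Prop := ∀ (T Y ρ : ℝ) (w y M0 R : ℕ) (φ φ' : ℕ → ℕ → ℝ) (E N : ℕ → ℝ), 1 < ρ → 0 < T → 0 < Y →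
  (∀ u v, |φ u v| ≤ 1) → (∀ u v, |φ' u v| ≤ 1) → (∀ u v : ℕ, (u : ℝ) ≤ T → Y < (v : ℝ) → φ u v = 0) →
  (∀ u v : ℕ, (u : ℝ) ≤ T / ρ ^ R → Y * ρ ^ R < (v : ℝ) → φ' u v = 0) → (∀ n, |E n| ≤ N n) →
  |∑ u ∈ Icc 1 ⌊T⌋₊, ∑ v ∈ Icc 1 ⌊Y⌋₊, φ u v * E (u * v) -
      ∑ u ∈ Icc 1 ⌊T / ρ ^ R⌋₊, ∑ v ∈ Icc 1 ⌊Y * ρ ^ R⌋₊, φ' u v * E (u * v)| ≤
    (∑ u ∈ Icc 1 ⌊T⌋₊, ∑ v ∈ Icc 1 ⌊Y⌋₊, if Badr T w y M0 ρ u v then N (u * v) else 0) +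
    (∑ u ∈ Icc 1 ⌊T / ρ ^ R⌋₊, ∑ v ∈ Icc 1 ⌊Y * ρ ^ R⌋₊,
      if Badr (T / ρ ^ R) w y M0 ρ u v then N (u * v) else 0) +
    √(∑ M ∈ (PP w y).divisors.filter (fun M => M ≤ M0), ∑ j ∈ WnR ρ M R, AAr N w y ρ T Y M j) *
    √(∑ M ∈ (PP w y).divisors.filter (fun M => M ≤ M0), ∑ j ∈ WnR ρ M R, DDr φ φ' N w y ρ T Y M j R)

/-- DSS. The weighted sieve bound for arbitrary real shifts and coefficients. -/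
def S_DSS : Prop := ∀ (C0 : ℝ) (k D S0 : ℕ), 0 < C0 → 1 ≤ D → ∃ C : ℝ, 0 < C ∧ ∃ k' B0 : ℕ, ∀ B : ℕ, B0 ≤ B →
  ∀ W : ℕ → ℝ, (∀ n, 0 ≤ W n) → U1b C0 k B (2 * D) W →
  ∀ (w y M X Y : ℕ) (I : Finset ℕ) (a κ : ℕ → ℝ) (L s0 : ℝ) (g : ℝ → ℝ), 1 ≤ w → w ≤ y → y ^ k' ≤ B →
  M ^ k' ≤ B → M ∣ PP w y → B ≤ X ^ D → X ≤ B ^ D → B ≤ Y ^ D → Y ≤ B ^ D → I.card ^ k' ≤ B → (∀ i ∈ I, |κ i| ≤ 1) →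
  1 ≤ L → L ^ k' ≤ B → (∀ s, |g s| ≤ 2) → (∀ s s', |g s - g s'| ≤ L * |s - s'|) →
  (∀ s, ¬ (s0 ≤ s ∧ s ≤ s0 + S0) → g s = 0) →
  ∑ x ∈ Icc 1 X, ∑ t ∈ Icc 1 Y, rg w y x * rg w y t * W (M * x * t) *
      (∑ i ∈ I, κ i * g (Real.log M + Real.log t - a i)) ^ 2 ≤
    C * ((M : ℝ) / Nat.totient M) * VW w y ^ 2 * ((X : ℝ) * Y) *
      ((∫ s : ℝ, (∑ i ∈ I, κ i * g (s - a i)) ^ 2) + 1 / Real.log B)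

/-- RGH. Rough numbers in dyadic intervals. -/
def S_RGH : Prop := ∃ C : ℝ, 0 < C ∧ ∀ w y N : ℕ, 2 ≤ w → w ≤ 2 * N →
  ∑ n ∈ (PP w y).divisors.filter (fun n => N < n ∧ n ≤ 2 * N), 1 / (n : ℝ) ≤ C / Real.log w

/-- SHB. The sum over pairs of divisors for the shift. -/
def S_SHB : Prop := ∀ q K S0 : ℕ, 1 ≤ q → ∃ C : ℝ, 0 < C ∧ ∃ w0 : ℕ, ∀ w y R : ℕ, w0 ≤ w → w ≤ y →
  Real.log y ≤ Real.log w ^ K → ∀ (L s0 ρ : ℝ) (g : ℝ → ℝ) (α : ℕ), 1 ≤ L → L ≤ Real.log w ^ K → 1 < ρ → ρ ≤ 2 →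
  1 ≤ R → R * Real.log ρ ≤ Real.log w / 4 →
  (∀ s, |g s| ≤ 2) → (∀ s s', |g s - g s'| ≤ L * |s - s'|) → (∀ s, ¬ (s0 ≤ s ∧ s ≤ s0 + S0) → g s = 0) →
  VW w y ^ 2 * ∑ M ∈ (PP w y).divisors, ∑ j ∈ WnR ρ M R, (1 / (Nat.totient M : ℝ)) *
    ∫ s : ℝ, (∑ m ∈ (Dv ρ M j).filter (fun m => m ≡ α [MOD q]), g (s - Real.log m) -
      ∑ m ∈ (DvR ρ M j R).filter (fun m => m ≡ α [MOD q]), g (s - (Real.log m + R * Real.log ρ))) ^ 2 ≤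
    C * (1 + R * Real.log ρ) * (1 + Real.log (Real.log y))

/-- SH. The shift. -/
def S_SH : Prop := ∀ (C0 ε : ℝ) (k D K K2 q A S0 : ℕ), 0 < C0 → 0 < ε → 1 ≤ D → 1 ≤ K → 1 ≤ q →
  ∃ ρ : ℝ, 1 < ρ ∧ ρ ≤ 2 ∧ ∃ B0 : ℕ, ∀ B : ℕ, B0 ≤ B → ∀ W E : ℕ → ℝ, (∀ n, |E n| ≤ W n) →
  U0b C0 k B (8 * D) W → U1b C0 k B (8 * D) W →
  ∀ (R T u0 v0 : ℕ) (g : ℝ → ℝ) (L : ℝ), ρ ^ R ≤ Real.log B ^ A → B ≤ T ^ D → T ≤ B ^ D → 1 ≤ L →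
  L ≤ Real.log B ^ K2 → (∀ s, |g s| ≤ 2) → (∀ s s', |g s - g s'| ≤ L * |s - s'|) →
  (∀ s, ¬ (Real.log B - S0 ≤ s ∧ s ≤ Real.log ((K : ℝ) * B)) → g s = 0) →
  |∑ u ∈ (Icc 1 T).filter (fun u => u ≡ u0 [MOD q]), ∑ v ∈ (Icc 1 (K * B)).filter (fun v => v ≡ v0 [MOD q]),
      g (Real.log v) * E (u * v) -
    ∑ u ∈ (Icc 1 ⌊(T : ℝ) / ρ ^ R⌋₊).filter (fun u => u ≡ u0 [MOD q]),
      ∑ v ∈ (Icc 1 ⌊(K : ℝ) * B * ρ ^ R⌋₊).filter (fun v => v ≡ v0 [MOD q]),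
        g (Real.log v - R * Real.log ρ) * E (u * v)| ≤ ε * ((B : ℝ) * T)

/-- H4P. Slowly varying weights, primes, `T ≤ K3 B`. -/
def S_H4P (c : ℤ) : Prop := ∃ Kc : ℝ, 0 < Kc ∧ ∀ (K K3 D q z : ℕ) (ε : ℝ), 1 ≤ K → 1 ≤ D → 1 ≤ q → 2 ≤ z →
  c.natAbs ≤ z → 0 < ε → PP 0 z ∣ q → (∀ p : ℕ, p.Prime → p ∣ q → p ≤ z) → ∃ B0 : ℕ, ∀ B : ℕ, B0 ≤ B → ∀ T : ℕ,
  B ≤ T ^ D → T ≤ K3 * B → H4 (Kc * K * (VW 0 z)⁻¹ / z) ε q K B T (EP c z B)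

/-- H4L. Slowly varying weights, Liouville, `T ≤ K3 B`. -/
def S_H4L (c : ℤ) : Prop := ∀ (K K3 D q : ℕ) (ε : ℝ), 1 ≤ K → 1 ≤ D → 1 ≤ q → 0 < ε → ∃ B0 : ℕ, ∀ B : ℕ,
  B0 ≤ B → ∀ T : ℕ, B ≤ T ^ D → T ≤ K3 * B → H4 0 ε q K B T (fun n => lam ((n : ℤ) + c))

/-- OFF2. As OFF, with `X ≤ B ^ 2`. -/
def S_OFF2 (G : Polynomial ℤ) (c : ℤ) : Prop := ∃ Kc : ℕ, 1 ≤ Kc ∧ ∀ k w y M0 K : ℕ, Kc ≤ k → Kc ≤ w → w ≤ y →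
  ∀ ε : ℝ, 0 < ε → ∃ z0 : ℕ, ∀ z : ℕ, z0 ≤ z → ∃ B0 : ℕ, ∀ B : ℕ, B0 ≤ B →
  ∀ (z1 X Y M m m' : ℕ) (F : ℤ → ℝ), z ≤ z1 → z1 ^ k ≤ B → M ∣ PP w y → M ≤ M0 → m ∣ M → m' ∣ M →
  B ≤ X ^ (G.natDegree + 2) → X ≤ B ^ 2 → Y ≤ K * B → B ≤ M / m * Y → B ≤ M / m' * Y → Adm5 F B →
  |∑ x ∈ Icc 1 X, ∑ t ∈ Icc 1 Y, rg w y x * rg w y t * dz z z1 ((M : ℤ) * x * t + c) *
      F (((M / m : ℕ) : ℤ) * t - G.eval ((m : ℤ) * x)) * F (((M / m' : ℕ) : ℤ) * t - G.eval ((m' : ℤ) * x))| ≤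
    (Kc * Real.log y ^ Kc * (2 : ℝ) ^ (-((k : ℝ) / Kc)) + ε) * ((X : ℝ) * Y)

/-- AP2. Stage A for the primes without `T ≤ B`. -/
def S_AP2 (G : Polynomial ℤ) (c : ℤ) : Prop := ∀ (K : ℕ) (ε : ℝ), 1 ≤ K → 0 < ε → ∃ z0 : ℕ, ∀ z : ℕ, z0 ≤ z →
  ∃ q : ℕ, 1 ≤ q ∧ PP 0 z ∣ q ∧ (∀ p : ℕ, p.Prime → p ∣ q → p ≤ z) ∧ ∃ η : ℝ, 0 < η ∧ ∃ B0 : ℕ, ∀ B : ℕ, B0 ≤ B →
  ∀ (T H : ℕ) (F : ℤ → ℝ), B ≤ T ^ (G.natDegree + 1) → T ^ G.natDegree ≤ K * B → Rge G K B T → q ∣ H → 1 ≤ H →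
  (H : ℝ) ≤ η * (T : ℝ) ^ G.natDegree → H ≤ B → Adm5 F B → ZeroMean F q H →
  |SE G K (EP c z B) B T F| ≤ ε * ((B : ℝ) * T)

/-- BC2. Stages B and C without `T ≤ B`. -/
def S_BC2 (G : Polynomial ℤ) : Prop := ∀ (C0 κ ε η : ℝ) (k K C2 q : ℕ), 0 < C0 → 0 ≤ κ → 0 < ε → 0 < η → 1 ≤ K →
  1 ≤ q → ∃ ε' : ℝ, 0 < ε' ∧ ∃ B0 : ℕ, ∀ B : ℕ, B0 ≤ B → ∀ W E : ℕ → ℝ, (∀ n, |E n| ≤ W n) →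
  U0b C0 k B (8 * (G.natDegree + 1)) W → U1b C0 k B (8 * (G.natDegree + 1)) W →
  ∀ (T H : ℕ) (F : ℤ → ℝ), (B : ℝ) ≤ (T : ℝ) ^ G.natDegree * Real.log B ^ C2 → T ^ G.natDegree ≤ K * B →
  Rge G K B T → H4 κ ε' q K B T E → q ∣ H → η * (T : ℝ) ^ G.natDegree ≤ H → 10 * H ≤ B → Adm5 F B →
  CellConst F q H → |SE G K E B T F| ≤ (κ + ε) * ((B : ℝ) * T)

/-- The mean value theorem for the primes, full range. -/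
def S_MCP2 (G : Polynomial ℤ) (c : ℤ) : Prop := ∀ (K : ℕ) (ε δ : ℝ), 1 ≤ K → 0 < ε → 0 < δ → ∃ z0 : ℕ, ∀ z : ℕ,
  z0 ≤ z → ∀ C2 : ℕ, ∃ B0 : ℕ, ∀ B : ℕ, B0 ≤ B → ∀ T : ℕ, (B : ℝ) ≤ (T : ℝ) ^ G.natDegree * Real.log B ^ C2 →
  T ^ G.natDegree ≤ K * B → Rge G K B T →
  ∑ b ∈ (Ioc B (4 * B)).filter (fun b : ℕ => (1 + δ) * (B : ℝ) ≤ (b : ℝ)),
    |∑ t ∈ Icc 1 T, EE z ((t : ℤ) * (G.eval (t : ℤ) + b) + c)| ≤ ε * ((B : ℝ) * T)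

/-- The mean value theorem for the Liouville function, full range. -/
def S_MCL2 (G : Polynomial ℤ) (c : ℤ) : Prop := ∀ (K C2 : ℕ) (ε δ : ℝ), 1 ≤ K → 0 < ε → 0 < δ → ∃ B0 : ℕ, ∀ B : ℕ,
  B0 ≤ B → ∀ T : ℕ, (B : ℝ) ≤ (T : ℝ) ^ G.natDegree * Real.log B ^ C2 → T ^ G.natDegree ≤ K * B → Rge G K B T →
  ∑ b ∈ (Ioc B (4 * B)).filter (fun b : ℕ => (1 + δ) * (B : ℝ) ≤ (b : ℝ)),
    |∑ t ∈ Icc 1 T, lam ((t : ℤ) * (G.eval (t : ℤ) + b) + c)| ≤ ε * ((B : ℝ) * T)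

/-- The final theorem for the Liouville function, `G` with positive leading coefficient. -/
def FinalL2 (G : Polynomial ℤ) (c : ℤ) : Prop := ∀ (ε : ℝ) (K C2 : ℕ), 0 < ε → ∃ B0 : ℕ,
  ∀ B : ℕ, B0 ≤ B → ∀ T : ℕ, (B : ℝ) ≤ (T : ℝ) ^ G.natDegree * Real.log B ^ C2 → T ^ G.natDegree ≤ K * B →
  ∑ b ∈ Icc 1 B, |∑ t ∈ Icc 1 T, lam (fp G b c t)| ≤ ε * ((B : ℝ) * T)

open Classical in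
/-- The final theorem for `a t ^ 2 + b t + c`, `a > 0`, full range. -/
def Final2 (a c : ℤ) : Prop := ∀ (ε : ℝ) (K C2 : ℕ), 0 < ε → ∃ B0 : ℕ, ∀ B : ℕ, B0 ≤ B → ∀ T : ℕ,
  (B : ℝ) ≤ T * Real.log B ^ C2 → T ≤ K * B →
  (((Icc 1 B).filter (fun b : ℕ => Admissible a b c ∧
    ¬ ∃ S : ℝ, IsC a b c S ∧
      |(count a b c T : ℝ) - 2 * S * ∑ t ∈ Icc 1 T, 1 / Real.log ((a * (t : ℤ) ^ 2 + b * t + c : ℤ) : ℝ)| ≤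
        ε * (T / Real.log T))).card : ℝ) ≤ ε * B

/-- the number of `x + y = n`, `x, y ≥ 1`, with `x y + c` prime -/
def rxy (c : ℤ) (n : ℕ) : ℕ := ((Ico 1 n).filter (fun x : ℕ => ((x : ℤ) * (n - x) + c).toNat.Prime)).card

open Classical in
/-- The final theorem for `x y + c`, `x + y = n`. -/
def FinalXY (c : ℤ) : Prop := ∀ ε : ℝ, 0 < ε → ∃ κ : ℝ, 0 < κ ∧ ∀ δ : ℝ, 0 < δ → ∃ N0 : ℕ, ∀ N : ℕ, N0 ≤ N →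
  (((Icc 1 N).filter (fun n : ℕ => (Even n ∨ Odd c) ∧
    ¬ ∃ S : ℝ, IsC (-1) n c S ∧ κ ≤ S ∧
      |(rxy c n : ℝ) - S * (n / Real.log n)| ≤ δ * (n / Real.log n))).card : ℝ) ≤ ε * N

end

end Pool.Agent.N728.QG
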