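import Pool.Agent.N728.QL.CoreA

set_option autoImplicit false

/-! # Project QG (helper728): almost all linear coefficients in every degree; primes and the Liouville function.
Definitions and the statements of the subtasks.

`G` is an integer polynomial of degree `e ≥ 1`, `f_b(t) = t (G(t) + b) + c = u v + c` with `u = t`, `v = b + G(t)`. -/

namespace Pool.Agent.N728.QG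

open Finset MeasureTheory Pool.Agent.N728.QL

noncomputable section

/-! ### Weights -/

/-- upper bound for the weight `W(u v)` in boxes, with divisibility conditions -/
def U0b (C : ℝ) (k B D : ℕ) (W : ℕ → ℝ) : Prop := ∀ d1 d2 X1 X2 I1 I2 : ℕ,
  1 ≤ d1 → 1 ≤ d2 → d1 ^ k ≤ B → d2 ^ k ≤ B →
  X1 ≤ X2 → B ≤ (X2 - X1) ^ D → X2 ≤ B ^ D → I1 ≤ I2 → B ≤ (I2 - I1) ^ D → I2 ≤ B ^ D →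
  ∑ u ∈ (Ioc X1 X2).filter (fun u => d1 ∣ u), ∑ v ∈ (Ioc I1 I2).filter (fun v => d2 ∣ v), W (u * v) ≤
    C * (((X2 : ℝ) - X1) * ((I2 : ℝ) - I1)) / ((Nat.totient d1 : ℝ) * Nat.totient d2)

/-- upper bound for the weight `W(M x t)`, `x` and `t` rough -/
def U1b (C : ℝ) (k B D : ℕ) (W : ℕ → ℝ) : Prop := ∀ w y M X I1 I2 : ℕ,
  1 ≤ w → w ≤ y → y ^ k ≤ B → M ^ k ≤ B → M ∣ PP w y →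
  B ≤ X ^ D → X ≤ B ^ D → I1 ≤ I2 → B ≤ (I2 - I1) ^ D → I2 ≤ B ^ D →
  ∑ x ∈ Icc 1 X, ∑ t ∈ Ioc I1 I2, rg w y x * rg w y t * W (M * x * t) ≤
    C * ((M : ℝ) / Nat.totient M) * VW w y ^ 2 * ((X : ℝ) * ((I2 : ℝ) - I1))

/-- U1. -/
def S_U1 (c : ℤ) : Prop := ∀ D : ℕ, 1 ≤ D → ∃ C : ℝ, 0 < C ∧ ∃ k B0 : ℕ, ∀ B : ℕ, B0 ≤ B → ∀ z : ℕ, 2 ≤ z →
  z ^ k ≤ B → U1b C k B D (fun n => lz z ((n : ℤ) + c))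

/-- U0. -/
def S_U0 (c : ℤ) : Prop := ∀ D : ℕ, 1 ≤ D → ∃ C : ℝ, 0 < C ∧ ∃ k B0 : ℕ, ∀ B : ℕ, B0 ≤ B → ∀ z : ℕ, 2 ≤ z →
  z ^ k ≤ B → U0b C k B D (fun n => lz z ((n : ℤ) + c))

/-- UU. The weight one. -/
def S_UU : Prop := ∀ D : ℕ, 1 ≤ D → ∃ C : ℝ, 0 < C ∧ ∃ k B0 : ℕ, ∀ B : ℕ, B0 ≤ B →
  U0b C k B D (fun _ => 1) ∧ U1b C k B D (fun _ => 1)

open Classical in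
/-- BAD. -/
def S_BAD : Prop := ∀ (C0 : ℝ) (k D : ℕ), 0 < C0 → 1 ≤ D → ∃ C : ℝ, 0 < C ∧ ∃ k' B0 : ℕ, ∀ B : ℕ, B0 ≤ B →
  ∀ W : ℕ → ℝ, (∀ n, 0 ≤ W n) → U0b C0 k B (2 * D) W →
  ∀ (w y M0 T Y : ℕ) (ρ : ℝ), 2 ≤ w → w ≤ y → y ^ k' ≤ B → 1 ≤ M0 → M0 ^ k' ≤ B →
  B ≤ T ^ D → T ≤ B ^ D → B ≤ Y ^ D → Y ≤ B ^ D → 1 + 1 / Real.log B ≤ ρ → ρ ≤ 2 →
  ∑ u ∈ Icc 1 T, ∑ v ∈ Icc 1 Y, (if Bad T w y M0 ρ u v then W (u * v) else 0) ≤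
    C * ((T : ℝ) * Y) * (1 / w + (ρ - 1) + Real.log y ^ C * Real.exp (-(Real.log M0 / (2 * Real.log y))))

/-- DS. -/
def S_DS : Prop := ∀ (C0 : ℝ) (k D S0 : ℕ), 0 < C0 → 1 ≤ D → ∃ C : ℝ, 0 < C ∧ ∃ k' B0 : ℕ, ∀ B : ℕ, B0 ≤ B →
  ∀ W : ℕ → ℝ, (∀ n, 0 ≤ W n) → U1b C0 k B (2 * D) W →
  ∀ (w y M X Y : ℕ) (Ds : Finset ℕ) (L s0 : ℝ) (g : ℝ → ℝ), 1 ≤ w → w ≤ y → y ^ k' ≤ B →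
  M ^ k' ≤ B → M ∣ PP w y → B ≤ X ^ D → X ≤ B ^ D → B ≤ Y ^ D → Y ≤ B ^ D → Ds.card ^ k' ≤ B → (∀ m ∈ Ds, 1 ≤ m) →
  1 ≤ L → L ^ k' ≤ B → (∀ s, |g s| ≤ 2) → (∀ s s', |g s - g s'| ≤ L * |s - s'|) →
  (∀ s, ¬ (s0 ≤ s ∧ s ≤ s0 + S0) → g s = 0) →
  ∑ x ∈ Icc 1 X, ∑ t ∈ Icc 1 Y, rg w y x * rg w y t * W (M * x * t) *
      (∑ m ∈ Ds, g (Real.log M + Real.log t - Real.log m)) ^ 2 ≤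
    C * ((M : ℝ) / Nat.totient M) * VW w y ^ 2 * ((X : ℝ) * Y) *
      ((∫ s : ℝ, (∑ m ∈ Ds, g (s - Real.log m)) ^ 2) + 1 / Real.log B)

/-- RNG. The ranges. -/
def S_RNG : Prop := ∀ D K : ℕ, 1 ≤ D → 1 ≤ K → ∃ k B0 : ℕ, ∀ B : ℕ, B0 ≤ B → ∀ (T M0 M j : ℕ) (ρ : ℝ),
  B ≤ T ^ D → T ≤ B ^ D → M0 ^ k ≤ B → 1 ≤ M → M ≤ M0 → 1 < ρ → ρ ≤ 2 → j ∈ Wn ρ M →
  B ≤ ⌊(T : ℝ) / ρ ^ (j + 1)⌋₊ ^ (2 * D) ∧ ⌊(T : ℝ) / ρ ^ (j + 1)⌋₊ ≤ T ∧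
  T ≤ 4 * M0 * ⌊(T : ℝ) / ρ ^ (j + 1)⌋₊ ∧
  B ≤ ⌊((K * B : ℕ) : ℝ) * ρ ^ (j + 1) / M⌋₊ ^ 2 ∧ ⌊((K * B : ℕ) : ℝ) * ρ ^ (j + 1) / M⌋₊ ≤ B ^ 2 ∧
  (⌊(T : ℝ) / ρ ^ (j + 1)⌋₊ : ℝ) * ⌊((K * B : ℕ) : ℝ) * ρ ^ (j + 1) / M⌋₊ ≤ T * (K * B) / M ∧
  ∀ m ∈ Dv ρ M j, K * B ≤ M / m * ⌊((K * B : ℕ) : ℝ) * ρ ^ (j + 1) / M⌋₊ + M0 ∧ (m : ℝ) < ρ ^ (j + 1)

/-- the truncated difference -/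
def EP (c : ℤ) (z B n : ℕ) : ℝ := if B ≤ 2 * n ∧ n ≤ B ^ 3 then EE z ((n : ℤ) + c) else 0

/-- EEB. The pointwise bound (`NN` is in `QL/CoreA.lean`). -/
def S_EEB : Prop := ∃ κ : ℝ, 1 ≤ κ ∧ ∀ (c : ℤ) (k z : ℕ), 2 ≤ k → ∃ B0 : ℕ, ∀ B : ℕ, B0 ≤ B →
  ∀ z1 : ℕ, z1 ^ k ≤ B → B < (z1 + 1) ^ k → 2 ≤ z1 ∧ ∀ n : ℕ, |EP c z B n| ≤ κ * k * NN c z z1 n

/-- CORE. The orbit bound, with the bad pairs and the first factor estimated. -/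
def S_CORE : Prop := ∀ (C0 : ℝ) (k D K : ℕ), 0 < C0 → 1 ≤ D → 1 ≤ K → ∃ C : ℝ, 1 ≤ C ∧ ∃ k' B0 : ℕ,
  ∀ B : ℕ, B0 ≤ B → ∀ W E : ℕ → ℝ, (∀ n, |E n| ≤ W n) → U0b C0 k B (8 * D) W → U1b C0 k B (8 * D) W →
  ∀ (T w y M0 : ℕ) (ρ : ℝ) (φ : ℕ → ℕ → ℝ), B ≤ T ^ D → T ≤ B ^ D → 2 ≤ w → w ≤ y → y ^ k' ≤ B → 1 ≤ M0 →
  M0 ^ k' ≤ B → 1 + 1 / Real.log B ≤ ρ → ρ ≤ 2 → (∀ u v, |φ u v| ≤ 1) → (∀ u v, u ≤ T → K * B < v → φ u v = 0) →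
  |∑ u ∈ Icc 1 T, ∑ v ∈ Icc 1 (K * B), φ u v * E (u * v)| ≤
    C * ((T : ℝ) * B) * (1 / w + (ρ - 1) + Real.log y ^ C * Real.exp (-(Real.log M0 / (2 * Real.log y)))) +
    √(C * ((T : ℝ) * B) * ((ρ - 1) ^ (-(1 / 2) : ℝ) * Real.log w ^ (3 / 5 : ℝ) * Real.log y ^ (-(1 / 12) : ℝ))) *
    √(∑ M ∈ (PP w y).divisors.filter (fun M => M ≤ M0), ∑ j ∈ Wn ρ M, DD φ W w y ρ T (K * B) M j)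

/-- DIA. The diagonal. -/
def S_DIA : Prop := ∀ (C0 : ℝ) (k D K : ℕ), 0 < C0 → 1 ≤ D → 1 ≤ K → ∃ C : ℝ, 1 ≤ C ∧ ∃ k' B0 : ℕ,
  ∀ B : ℕ, B0 ≤ B → ∀ W : ℕ → ℝ, (∀ n, 0 ≤ W n) → U1b C0 k B (8 * D) W →
  ∀ (T w y M0 : ℕ) (ρ : ℝ), B ≤ T ^ D → T ≤ B ^ D → 2 ≤ w → w ≤ y → y ^ k' ≤ B → 1 ≤ M0 →
  M0 ^ k' ≤ B → 1 < ρ → ρ ≤ 2 →
  ∑ M ∈ (PP w y).divisors.filter (fun M => M ≤ M0), ∑ j ∈ Wn ρ M, ∑ _m ∈ Dv ρ M j, AA W w y ρ T (K * B) M j ≤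
    C * ((T : ℝ) * B)

/-! ### The bilinear sums -/

/-- `|F| ≤ 1`, supported in `(B, 5 B]` -/
def Adm5 (F : ℤ → ℝ) (B : ℕ) : Prop := (∀ b, |F b| ≤ 1) ∧ ∀ b, ¬ ((B : ℤ) < b ∧ b ≤ 5 * B) → F b = 0

/-- the bilinear sum -/
def SE (G : Polynomial ℤ) (K : ℕ) (E : ℕ → ℝ) (B T : ℕ) (F : ℤ → ℝ) : ℝ :=
  ∑ u ∈ Icc 1 T, ∑ v ∈ Icc 1 (K * B), F ((v : ℤ) - G.eval (u : ℤ)) * E (u * v)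

/-- `v = b + G(u)` lies in `[B / 2, K B / 3]` for `b` in `(B, 5 B]`, `u ≤ T` -/
def Rge (G : Polynomial ℤ) (K B T : ℕ) : Prop := ∀ u : ℕ, 1 ≤ u → u ≤ T →
  -(B : ℤ) ≤ 2 * G.eval (u : ℤ) ∧ 3 * (G.eval (u : ℤ) + 5 * B) ≤ (K : ℤ) * B

/-! ### Stage A -/

/-- GVN. The Cauchy-Schwarz inequality `e + 1` times. -/
def S_GVN : Prop := ∀ (e : ℕ) (Q : Polynomial ℤ), 1 ≤ e → Q.natDegree ≤ e →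
  ∃ S : Finset (Fin (e + 1)) → MvPolynomial (Fin (e + 2)) ℤ, (∀ ω, (S ω).totalDegree ≤ e) ∧
  ∀ (L N1 N2 Z0 : ℕ) (a1 a2 : ℤ) (f : ℤ → ℤ → ℝ) (Φ1 Φ2 : ℤ → ℝ), 1 ≤ L → 1 ≤ N1 → 1 ≤ N2 →
    (∀ ξ σ : ℤ, ¬ (0 ≤ ξ ∧ ξ ≤ L ∧ |σ| ≤ Z0) → f ξ σ = 0) →
    (∀ σ : ℤ, |Φ1 σ| ≤ 1) → (∀ σ : ℤ, |Φ2 σ| ≤ 1) →
    (∀ σ : ℤ, ¬ (a1 < σ ∧ σ ≤ a1 + N1) → Φ1 σ = 0) → (∀ σ : ℤ, ¬ (a2 < σ ∧ σ ≤ a2 + N2) → Φ2 σ = 0) →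
    ∃ Z1 : ℕ, ∀ Z : ℕ, Z1 ≤ Z →
    |∑ ξ ∈ Icc (0 : ℤ) L, ∑ σ ∈ Icc (-(Z : ℤ)) Z, f ξ σ * Φ1 σ * Φ2 (σ + Q.eval ξ)| ^ (2 ^ (e + 1)) ≤
      (N1 : ℝ) ^ (2 ^ e) * (N2 : ℝ) ^ (2 ^ e - 1) * (3 * (L : ℝ)) ^ (2 ^ (e + 1) - e - 2) *
      ∑ τ ∈ Fintype.piFinset (fun _ : Fin (e + 1) => Icc (-(L : ℤ)) L),
        |∑ ξ ∈ Icc (0 : ℤ) L, ∑ σ ∈ Icc (-(Z : ℤ)) Z,
          ∏ ω : Finset (Fin (e + 1)), f (ξ + ∑ j ∈ ω, τ j) (σ + MvPolynomial.eval (Fin.cons ξ τ) (S ω))|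

open Classical in
/-- FLC. The fundamental lemma, at most `κ` classes, primes in `(y, z1]`. -/
def S_FLC : Prop := ∀ κ : ℕ, ∃ K : ℕ, 1 ≤ K ∧ ∀ (b y z1 : ℕ) (Om : ℕ → Finset ℕ) (J1 J2 : ℤ), K ≤ b → K ≤ y →
  y ≤ z1 → (∀ p : ℕ, p.Prime → y < p → p ≤ z1 → Om p ⊆ range p ∧ (Om p).card ≤ κ) → J1 ≤ J2 →
  |(((Ioc J1 J2).filter (fun t : ℤ => ∀ p : ℕ, p.Prime → y < p → p ≤ z1 → (t % p).toNat ∉ Om p)).card : ℝ) -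
      ((J2 : ℝ) - J1) * ∏ p ∈ (Ioc y z1).filter Nat.Prime, (1 - ((Om p).card : ℝ) / p)| ≤
    (1 / 2 : ℝ) ^ b * (((J2 : ℝ) - J1) * ∏ p ∈ (Ioc y z1).filter Nat.Prime, (1 - ((Om p).card : ℝ) / p)) +
      (z1 : ℝ) ^ (K * b)

/-- the sieve model with the primes in `(y, z]` -/
def lzy (y z : ℕ) (n : ℤ) : ℝ := rg y z n * (VW y z)⁻¹

/-- the difference of two models -/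
def dzy (y z z1 : ℕ) (n : ℤ) : ℝ := lzy y z1 n - lzy y z n

/-- `∏_{p ∣ D, p > s} (1 + κ/p)` -/
def hqg (κ s : ℕ) (D : ℤ) : ℝ := ∏ p ∈ D.natAbs.primeFactors.filter (fun p => s < p), (1 + (κ : ℝ) / (p : ℝ))

/-- the discriminant of linear forms `α_i s + β_i` -/
def Dg {ι : Type} [Fintype ι] [DecidableEq ι] (α β : ι → ℤ) : ℤ :=
  (∏ i, α i) * ∏ ij ∈ (univ : Finset ι).offDiag, (α ij.1 * β ij.2 - α ij.2 * β ij.1)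

/-- FLB. The fundamental lemma for several linear forms, alternating sum. -/
def S_FLB : Prop := ∀ k0 : ℕ, ∃ K : ℕ, 1 ≤ K ∧ ∀ (ι : Type) [Fintype ι] [DecidableEq ι], Fintype.card ι = k0 → 1 ≤ k0 →
  ∀ (b y z z1 : ℕ) (α β : ι → ℤ) (J1 J2 : ℤ), K ≤ b → K ≤ y → y ≤ z → z ≤ z1 → J1 ≤ J2 →
  (∀ i, ∀ p : ℕ, p.Prime → y < p → ¬ ((p : ℤ) ∣ α i ∧ (p : ℤ) ∣ β i)) → Dg α β ≠ 0 →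
  |∑ s ∈ Ioc J1 J2, ∏ i, dzy y z z1 (α i * s + β i)| ≤
    K * ((J2 : ℝ) - J1) *
      (hqg K y (Dg α β) ^ 2 * ((1 / 2 : ℝ) ^ b + 1 / z) + hqg K y (Dg α β) * (hqg K z (Dg α β) - 1)) +
    (z1 : ℝ) ^ (K * b)

/-- AVG. The average of `hqg` over the values of a polynomial which does not vanish modulo the primes `p > s`. -/
def S_AVG : Prop := ∀ n δ κ : ℕ, 1 ≤ n → ∃ K : ℝ, 0 < K ∧ ∀ (s : ℕ) (P : MvPolynomial (Fin n) ℤ), 2 ≤ s →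
  P.totalDegree ≤ δ → (∀ p : ℕ, p.Prime → s < p → MvPolynomial.map (Int.castRingHom (ZMod p)) P ≠ 0) →
  ∀ D : ℕ, 1 ≤ D → ∃ B0 : ℕ, ∀ B : ℕ, B0 ≤ B → ∀ L : ℕ, B ≤ L ^ D → L ≤ B ^ D →
  (∑ v ∈ Fintype.piFinset (fun _ : Fin n => Icc (-(L : ℤ)) L),
    (if MvPolynomial.eval v P = 0 then 0 else hqg κ s (MvPolynomial.eval v P) ^ 2 - 1) ≤ K / s * (L : ℝ) ^ n) ∧
  (((Fintype.piFinset (fun _ : Fin n => Icc (-(L : ℤ)) L)).filter (fun v => MvPolynomial.eval v P = 0)).card : ℝ) ≤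
    (L : ℝ) ^ n / Real.log B ^ κ

/-- BOX. -/
def S_BOX : Prop := ∀ (n δ : ℕ) (c : ℤ), 1 ≤ n → c ≠ 0 → ∃ Kc : ℕ, 1 ≤ Kc ∧ ∀ k y D : ℕ, Kc ≤ k → Kc ≤ y → 1 ≤ D →
  8 * D * Kc ≤ k → ∀ ε : ℝ, 0 < ε → ∃ z0 : ℕ, ∀ z : ℕ, z0 ≤ z →
  ∀ (M a1 a2 : ℕ) (x0 t0 : ℤ) (θ : Finset (Fin n) → MvPolynomial (Fin (n + 1)) ℤ), 1 ≤ M → 1 ≤ a1 → 1 ≤ a2 →
  (∀ p : ℕ, p.Prime → y < p → ¬ p ∣ M * a1 * a2 ∧ ¬ (p : ℤ) ∣ c) → (∀ ω, (θ ω).totalDegree ≤ δ) →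
  ∃ B0 : ℕ, ∀ B : ℕ, B0 ≤ B → ∀ (z1 L N : ℕ) (J1 J2 : (Fin (n + 1) → ℤ) → ℤ), z ≤ z1 → z1 ^ k ≤ B →
  B ≤ L ^ D → L ≤ B ^ D → B ≤ N ^ D → N ≤ B ^ D → (∀ v, J1 v ≤ J2 v ∧ J2 v ≤ J1 v + N) →
  ∑ v ∈ Fintype.piFinset (fun _ : Fin (n + 1) => Icc (-(L : ℤ)) L),
    |∑ σ ∈ Ioc (J1 v) (J2 v), ∏ ω : Finset (Fin n),
      dzy y z z1 ((M : ℤ) * (x0 + a1 * (v 0 + ∑ j ∈ ω, v j.succ)) * (t0 + a2 * (σ + MvPolynomial.eval v (θ ω))) + c)| ≤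
    (Kc * (2 : ℝ) ^ (-((k : ℝ) / (8 * D * Kc))) + ε) * ((L : ℝ) ^ (n + 1) * N)

/-- OFF. -/
def S_OFF (G : Polynomial ℤ) (c : ℤ) : Prop := ∃ Kc : ℕ, 1 ≤ Kc ∧ ∀ k w y M0 K : ℕ, Kc ≤ k → Kc ≤ w → w ≤ y →
  ∀ ε : ℝ, 0 < ε → ∃ z0 : ℕ, ∀ z : ℕ, z0 ≤ z → ∃ B0 : ℕ, ∀ B : ℕ, B0 ≤ B →
  ∀ (z1 X Y M m m' : ℕ) (F : ℤ → ℝ), z ≤ z1 → z1 ^ k ≤ B → M ∣ PP w y → M ≤ M0 → m ∣ M → m' ∣ M →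
  B ≤ X ^ (G.natDegree + 2) → X ≤ B → Y ≤ K * B → B ≤ M / m * Y → B ≤ M / m' * Y → Adm5 F B →
  |∑ x ∈ Icc 1 X, ∑ t ∈ Icc 1 Y, rg w y x * rg w y t * dz z z1 ((M : ℤ) * x * t + c) *
      F (((M / m : ℕ) : ℤ) * t - G.eval ((m : ℤ) * x)) * F (((M / m' : ℕ) : ℤ) * t - G.eval ((m' : ℤ) * x))| ≤
    (Kc * Real.log y ^ Kc * (2 : ℝ) ^ (-((k : ℝ) / Kc)) + ε) * ((X : ℝ) * Y)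

/-- WI. The inverse theorem of Weyl. -/
def S_WI : Prop := ∀ Q : Polynomial ℤ, 1 ≤ Q.natDegree → ∀ δ : ℝ, 0 < δ → ∃ R : ℕ, 1 ≤ R ∧ ∃ C : ℝ, 0 < C ∧
  ∃ L0 : ℕ, ∀ L : ℕ, L0 ≤ L → ∀ (ξ0 ξ1 : ℤ) (α : ℝ), ξ0 ≤ ξ1 → ξ1 - ξ0 ≤ L →
  δ * L ≤ ‖∑ ξ ∈ Ioc ξ0 ξ1, Complex.exp (2 * Real.pi * Complex.I * (α * ((Q.eval ξ : ℤ) : ℝ) : ℝ))‖ →
  ∃ r ∈ Icc 1 R, ∃ a : ℤ, |α - (a : ℝ) / r| ≤ C / (L : ℝ) ^ Q.natDegree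

/-- mean zero on (class modulo `r`) ∩ (block), for all `r ≤ R` -/
def CellZ (Φ : ℤ → ℝ) (R : ℕ) (a' : ℤ) (H : ℕ) : Prop := ∀ r ∈ Icc 1 R, ∀ ρ0 k : ℤ,
  ∑ σ ∈ (Ico (a' + k * H) (a' + (k + 1) * H)).filter (fun σ => σ ≡ ρ0 [ZMOD (r : ℤ)]), Φ σ = 0

/-- WEY. Correlations along the differences of polynomial values. -/
def S_WEY : Prop := ∀ Q : Polynomial ℤ, 1 ≤ Q.natDegree → ∀ ε : ℝ, 0 < ε → ∃ R : ℕ, 1 ≤ R ∧ ∃ η : ℝ, 0 < η ∧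
  ∃ L0 : ℕ, ∀ L : ℕ, L0 ≤ L → ∀ (N H : ℕ) (a a' ξ0 ξ1 : ℤ) (Φ : ℤ → ℝ), 1 ≤ H →
  (H : ℝ) ≤ η * (L : ℝ) ^ Q.natDegree → H ≤ N → ξ0 ≤ ξ1 → ξ1 - ξ0 ≤ L → (∀ σ, |Φ σ| ≤ 1) →
  (∀ σ : ℤ, ¬ (a < σ ∧ σ ≤ a + N) → Φ σ = 0) → CellZ Φ R a' H →
  ∑ ξ ∈ Ioc ξ0 ξ1, ∑ ξ' ∈ Ioc ξ0 ξ1, ∑ σ ∈ Ioc a (a + N), Φ σ * Φ (σ + Q.eval ξ' - Q.eval ξ) ≤
    ε * ((N : ℝ) * (L : ℝ) ^ 2)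

/-- SP. The off-diagonal terms for a periodic weight. -/
def S_SP (G : Polynomial ℤ) : Prop := ∀ (P w y M m m' K : ℕ) (ε : ℝ), 0 < ε → 1 ≤ P → PP w y ∣ P → M ∣ PP w y →
  m ∣ M → m' ∣ M → m ≠ m' → ∃ q0 : ℕ, 1 ≤ q0 ∧ ∃ η : ℝ, 0 < η ∧ ∃ B0 : ℕ, ∀ B : ℕ, B0 ≤ B →
  ∀ (q X Y H : ℕ) (F ψ : ℤ → ℝ), q0 ∣ q → 1 ≤ q → q ∣ H → 1 ≤ H → (H : ℝ) ≤ η * (X : ℝ) ^ G.natDegree → H ≤ B →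
  B ≤ X ^ (G.natDegree + 2) → Y ≤ K * B → (∀ n, |ψ n| ≤ 1) → (∀ n, ψ (n + P) = ψ n) →
  (∀ x : ℕ, 1 ≤ x → x ≤ X → 0 ≤ (B : ℤ) + G.eval ((m : ℤ) * x) ∧ 0 ≤ (B : ℤ) + G.eval ((m' : ℤ) * x) ∧
    5 * (B : ℤ) + G.eval ((m : ℤ) * x) ≤ ((M / m : ℕ) : ℤ) * Y ∧
    5 * (B : ℤ) + G.eval ((m' : ℤ) * x) ≤ ((M / m' : ℕ) : ℤ) * Y) →
  Adm5 F B → ZeroMean F q H →
  |∑ x ∈ Icc 1 X, ∑ t ∈ Icc 1 Y, rg w y x * rg w y t * ψ ((M : ℤ) * x * t) *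
      F (((M / m : ℕ) : ℤ) * t - G.eval ((m : ℤ) * x)) * F (((M / m' : ℕ) : ℤ) * t - G.eval ((m' : ℤ) * x))| ≤
    ε * ((X : ℝ) * Y)

/-- Stage A for a bounded function. -/
def S_AL (G : Polynomial ℤ) : Prop := ∀ (K : ℕ) (ε : ℝ), 1 ≤ K → 0 < ε → ∃ q0 : ℕ, 1 ≤ q0 ∧ ∃ η : ℝ, 0 < η ∧
  ∀ q : ℕ, 1 ≤ q → q0 ∣ q → ∃ B0 : ℕ, ∀ B : ℕ, B0 ≤ B → ∀ (T H : ℕ) (F : ℤ → ℝ) (E : ℕ → ℝ), B ≤ T ^ (G.natDegree + 1) →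
  T ^ G.natDegree ≤ K * B → Rge G K B T → q ∣ H → 1 ≤ H → (H : ℝ) ≤ η * (T : ℝ) ^ G.natDegree → H ≤ B → Adm5 F B →
  ZeroMean F q H → (∀ n, |E n| ≤ 1) → |SE G K E B T F| ≤ ε * ((B : ℝ) * T)

/-- Stage A for the primes. -/
def S_AP (G : Polynomial ℤ) (c : ℤ) : Prop := ∀ (K : ℕ) (ε : ℝ), 1 ≤ K → 0 < ε → ∃ z0 : ℕ, ∀ z : ℕ, z0 ≤ z →
  ∃ q : ℕ, 1 ≤ q ∧ PP 0 z ∣ q ∧ (∀ p : ℕ, p.Prime → p ∣ q → p ≤ z) ∧ ∃ η : ℝ, 0 < η ∧ ∃ B0 : ℕ, ∀ B : ℕ, B0 ≤ B →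
  ∀ (T H : ℕ) (F : ℤ → ℝ), B ≤ T ^ (G.natDegree + 1) → T ^ G.natDegree ≤ K * B → T ≤ B → Rge G K B T → q ∣ H → 1 ≤ H →
  (H : ℝ) ≤ η * (T : ℝ) ^ G.natDegree → H ≤ B → Adm5 F B → ZeroMean F q H →
  |SE G K (EP c z B) B T F| ≤ ε * ((B : ℝ) * T)

/-! ### Stages B and C -/

/-- QB, with support of any fixed length. -/
def S_QB : Prop := ∀ q K S0 : ℕ, 1 ≤ q → ∃ C : ℝ, 0 < C ∧ ∃ w0 : ℕ, ∀ w y : ℕ, w0 ≤ w → w ≤ y →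
  Real.log y ≤ Real.log w ^ K → ∀ (L s0 ρ : ℝ) (g : ℝ → ℝ) (α : ℕ), 1 ≤ L → L ≤ Real.log w ^ K → 1 < ρ → ρ ≤ 2 →
  (∀ s, |g s| ≤ 2) → (∀ s s', |g s - g s'| ≤ L * |s - s'|) → (∀ s, ¬ (s0 ≤ s ∧ s ≤ s0 + S0) → g s = 0) →
  (∀ s1 s2 : ℝ, s1 ≤ s2 → |∫ s in s1..s2, g s| ≤ 1 / Real.log y) →
  VW w y ^ 2 * ∑ M ∈ (PP w y).divisors, ∑ j ∈ Wn ρ M, (1 / (Nat.totient M : ℝ)) *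
    ∫ s : ℝ, (∑ m ∈ (Dv ρ M j).filter (fun m => m ≡ α [MOD q]), g (s - Real.log m)) ^ 2 ≤
    C * (1 + Real.log (Real.log y))

/-- B2. -/
def S_B2 : Prop := ∀ (C0 ε : ℝ) (k D K K2 q : ℕ), 0 < C0 → 0 < ε → 1 ≤ D → 1 ≤ K → 1 ≤ q → ∃ B0 : ℕ, ∀ B : ℕ, B0 ≤ B →
  ∀ W E : ℕ → ℝ, (∀ n, |E n| ≤ W n) → U0b C0 k B (8 * D) W → U1b C0 k B (8 * D) W →
  ∀ (T u0 v0 : ℕ) (g : ℝ → ℝ) (L : ℝ), B ≤ T ^ D → T ≤ B ^ D → 1 ≤ L → L ≤ Real.log B ^ K2 → (∀ s, |g s| ≤ 2) →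
  (∀ s s', |g s - g s'| ≤ L * |s - s'|) →
  (∀ s, ¬ (Real.log ((B : ℝ) / 4) ≤ s ∧ s ≤ Real.log ((K : ℝ) * (B : ℝ))) → g s = 0) →
  (∀ s1 s2 : ℝ, s1 ≤ s2 → |∫ s in s1..s2, g s| ≤ 1 / Real.sqrt (Real.log B)) →
  |∑ u ∈ (Icc 1 T).filter (fun u => u ≡ u0 [MOD q]), ∑ v ∈ (Icc 1 (K * B)).filter (fun v => v ≡ v0 [MOD q]),
    g (Real.log v) * E (u * v)| ≤ ε * ((B : ℝ) * T)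

/-- SM. Smoothing. -/
def S_SM : Prop := ∀ K : ℕ, 4 ≤ K → ∃ C : ℝ, 1 ≤ C ∧ ∀ (B H δ ℓ σ : ℝ) (G0 : ℝ → ℝ), 1 ≤ B → 0 < H → 10 * H ≤ B →
  0 < δ → δ ≤ 1 / 2 → 10 ≤ ℓ → (∀ v, |G0 v| ≤ 1) → (∀ v v', ⌊(v - σ) / H⌋ = ⌊(v' - σ) / H⌋ → G0 v = G0 v') →
  (∀ v, ¬ (B / 3 ≤ v ∧ v ≤ K * B / 2) → G0 v = 0) →
  ∃ g G : ℝ → ℝ, (∀ s, |g s| ≤ 2) ∧ (∀ s s', |g s - g s'| ≤ C * (B / (δ * H) + ℓ) * |s - s'|) ∧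
    (∀ s, ¬ (Real.log (B / 4) ≤ s ∧ s ≤ Real.log (K * B)) → g s = 0) ∧
    (∀ s1 s2 : ℝ, s1 ≤ s2 → |∫ s in s1..s2, g s| ≤ 1 / ℓ) ∧
    (∀ v, |G v| ≤ 1) ∧ (∀ v v', |G v - G v'| ≤ C * ℓ * |v - v'| / B) ∧
    (∀ v, 0 < v → |G v + g (Real.log v)| ≤ 1) ∧
    (∀ v, 0 < v → (∀ k : ℤ, δ * H ≤ |v - σ - k * H|) → G0 v = G v + g (Real.log v))

/-- the bound for slowly varying functions of `v` -/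
def H4 (κ ε : ℝ) (q K B T : ℕ) (E : ℕ → ℝ) : Prop := ∀ (U1 U2 u0 v0 : ℕ) (Gv : ℕ → ℝ), U1 ≤ U2 → U2 ≤ T →
  (∀ v, |Gv v| ≤ 1) → (∀ v, |Gv (v + 1) - Gv v| ≤ Real.log B / B) →
  |∑ u ∈ (Ioc U1 U2).filter (fun u => u ≡ u0 [MOD q]), ∑ v ∈ (Icc 1 (K * B)).filter (fun v => v ≡ v0 [MOD q]),
    Gv v * E (u * v)| ≤ κ / (q : ℝ) ^ 2 * (B * ((U2 : ℝ) - U1)) + ε * ((B : ℝ) * T)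

/-- B4 for the primes. -/
def S_B4P (c : ℤ) : Prop := ∃ (C1 : ℕ) (Kc : ℝ), 0 < Kc ∧ ∀ (K D q z : ℕ) (ε : ℝ), 1 ≤ K → 1 ≤ D → 1 ≤ q → 2 ≤ z →
  c.natAbs ≤ z → 0 < ε → PP 0 z ∣ q → (∀ p : ℕ, p.Prime → p ∣ q → p ≤ z) → ∃ B0 : ℕ, ∀ B : ℕ, B0 ≤ B → ∀ T : ℕ,
  B ≤ T ^ D → (T : ℝ) * Real.log B ^ C1 ≤ B →
  H4 (Kc * K * (VW 0 z)⁻¹ / z) ε q K B T (EP c z B)

/-- the Liouville function, `λ(-n) = λ(n)`, `λ(0) = 0` -/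
def lam (n : ℤ) : ℝ := if n = 0 then 0 else (-1) ^ (ArithmeticFunction.cardFactors n.natAbs)

/-- BVL. The theorem of Bombieri and Vinogradov for the Liouville function. -/
def S_BVL : Prop := ∀ A : ℕ, ∃ K X0 : ℕ, ∀ x : ℕ, X0 ≤ x → ∀ D : ℕ, (D : ℝ) ^ 2 * Real.log x ^ K ≤ x →
  ∀ r h : ℕ → ℕ, (∀ m ∈ Icc 1 D, Nat.Coprime (r m) m) → (∀ m, h m ≤ x) →
  ∑ m ∈ Icc 1 D, |∑ n ∈ (Icc 1 (h m)).filter (fun n => n ≡ r m [MOD m]), lam n| ≤ x / Real.log x ^ A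

/-- B4 for the Liouville function. -/
def S_B4L (c : ℤ) : Prop := ∃ C1 : ℕ, ∀ (K D q : ℕ) (ε : ℝ), 1 ≤ K → 1 ≤ D → 1 ≤ q → 0 < ε → ∃ B0 : ℕ, ∀ B : ℕ,
  B0 ≤ B → ∀ T : ℕ, B ≤ T ^ D → (T : ℝ) * Real.log B ^ C1 ≤ B → H4 0 ε q K B T (fun n => lam ((n : ℤ) + c))

/-- Stages B and C. -/
def S_BC (G : Polynomial ℤ) : Prop := ∀ (C0 κ ε η : ℝ) (k K C2 q : ℕ), 0 < C0 → 0 ≤ κ → 0 < ε → 0 < η → 1 ≤ K → 1 ≤ q →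
  ∃ ε' : ℝ, 0 < ε' ∧ ∃ B0 : ℕ, ∀ B : ℕ, B0 ≤ B → ∀ W E : ℕ → ℝ, (∀ n, |E n| ≤ W n) →
  U0b C0 k B (8 * (G.natDegree + 1)) W → U1b C0 k B (8 * (G.natDegree + 1)) W →
  ∀ (T H : ℕ) (F : ℤ → ℝ), (B : ℝ) ≤ (T : ℝ) ^ G.natDegree * Real.log B ^ C2 → T ^ G.natDegree ≤ K * B → T ≤ B →
  Rge G K B T → H4 κ ε' q K B T E → q ∣ H → η * (T : ℝ) ^ G.natDegree ≤ H → 10 * H ≤ B → Adm5 F B → CellConst F q H →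
  |SE G K E B T F| ≤ (κ + ε) * ((B : ℝ) * T)

/-- The mean value theorem for the primes. -/
def S_MCP (G : Polynomial ℤ) (c : ℤ) : Prop := ∃ C1 : ℕ, ∀ (K : ℕ) (ε : ℝ), 1 ≤ K → 0 < ε → ∃ z0 : ℕ, ∀ z : ℕ,
  z0 ≤ z → ∀ C2 : ℕ, ∃ B0 : ℕ, ∀ B : ℕ, B0 ≤ B → ∀ T : ℕ, (B : ℝ) ≤ (T : ℝ) ^ G.natDegree * Real.log B ^ C2 →
  T ^ G.natDegree ≤ K * B → (T : ℝ) * Real.log B ^ C1 ≤ B → Rge G K B T →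
  ∑ b ∈ Ioc (2 * B) (4 * B), |∑ t ∈ Icc 1 T, EE z ((t : ℤ) * (G.eval (t : ℤ) + b) + c)| ≤ ε * ((B : ℝ) * T)

/-- The mean value theorem for the Liouville function. -/
def S_MCL (G : Polynomial ℤ) (c : ℤ) : Prop := ∃ C1 : ℕ, ∀ (K C2 : ℕ) (ε : ℝ), 1 ≤ K → 0 < ε → ∃ B0 : ℕ, ∀ B : ℕ,
  B0 ≤ B → ∀ T : ℕ, (B : ℝ) ≤ (T : ℝ) ^ G.natDegree * Real.log B ^ C2 → T ^ G.natDegree ≤ K * B →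
  (T : ℝ) * Real.log B ^ C1 ≤ B → Rge G K B T →
  ∑ b ∈ Ioc (2 * B) (4 * B), |∑ t ∈ Icc 1 T, lam ((t : ℤ) * (G.eval (t : ℤ) + b) + c)| ≤ ε * ((B : ℝ) * T)

/-! ### The final theorems -/

/-- the polynomial -/
def fp (G : Polynomial ℤ) (b c : ℤ) (t : ℕ) : ℤ := (t : ℤ) * (G.eval (t : ℤ) + b) + c

/-- number of roots modulo `p` -/
def om (G : Polynomial ℤ) (b c : ℤ) (p : ℕ) : ℕ := ((range p).filter (fun t : ℕ => (p : ℤ) ∣ fp G b c t)).card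

/-- the singular series up to `z` -/
def Sg (G : Polynomial ℤ) (b c : ℤ) (z : ℕ) : ℝ :=
  ∏ p ∈ (Ioc 0 z).filter Nat.Prime, (1 - (om G b c p : ℝ) / p) / (1 - 1 / (p : ℝ))

/-- LOC. -/
def S_LOC : Prop := ∀ (G : Polynomial ℤ) (c : ℤ) (z : ℕ), ∃ C : ℝ, 0 < C ∧ ∀ (b : ℤ) (T1 T2 : ℕ), T1 ≤ T2 →
  |∑ t ∈ Ioc T1 T2, lz z (fp G b c t) - ((T2 : ℝ) - T1) * Sg G b c z| ≤ C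

/-- AVS. The singular series is bounded on average. -/
def S_AVS : Prop := ∀ (G : Polynomial ℤ) (c : ℤ), 1 ≤ G.natDegree → c ≠ 0 → ∃ C : ℝ, 0 < C ∧ ∀ z : ℕ, ∃ B0 : ℕ, ∀ B : ℕ,
  B0 ≤ B → ∑ b ∈ Icc 1 B, Sg G b c z ≤ C * B

/-- TLS. The tail of the singular series up to a power of the logarithm. -/
def S_TLS : Prop := ∀ (G : Polynomial ℤ) (c : ℤ), 1 ≤ G.natDegree → c ≠ 0 → ∀ ε : ℝ, 0 < ε → ∃ z0 : ℕ, ∀ z : ℕ, z0 ≤ z →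
  ∀ A : ℕ, ∃ B0 : ℕ, ∀ B : ℕ, B0 ≤ B → ∀ Z : ℕ, z ≤ Z → (Z : ℝ) ≤ Real.log B ^ A →
  (((Icc 1 B).filter (fun b : ℕ => ε < |Sg G b c Z - Sg G b c z|)).card : ℝ) ≤ ε * B

/-- number of primes among the values -/
def cnt (G : Polynomial ℤ) (b c : ℤ) (T : ℕ) : ℕ := ((Icc 1 T).filter (fun t : ℕ => (fp G b c t).toNat.Prime)).card

/-- The final theorem for the primes, `G` of degree at least `2` with positive leading coefficient. -/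
def FinalP (G : Polynomial ℤ) (c : ℤ) : Prop := ∀ (ε : ℝ) (K C2 : ℕ), 0 < ε → ∃ z0 : ℕ, ∀ A : ℕ, ∃ B0 : ℕ,
  ∀ B : ℕ, B0 ≤ B → ∀ T Z : ℕ, (B : ℝ) ≤ (T : ℝ) ^ G.natDegree * Real.log B ^ C2 → T ^ G.natDegree ≤ K * B →
  z0 ≤ Z → (Z : ℝ) ≤ Real.log B ^ A →
  (((Icc 1 B).filter (fun b : ℕ => ¬ |(cnt G b c T : ℝ) -
      Sg G b c Z * ∑ t ∈ (Icc 1 T).filter (fun t => 2 ≤ fp G b c t), 1 / Real.log ((fp G b c t : ℤ) : ℝ)| ≤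
        ε * (T / Real.log T))).card : ℝ) ≤ ε * B

/-- The final theorem for the Liouville function. -/
def FinalL (G : Polynomial ℤ) (c : ℤ) : Prop := ∃ C1 : ℕ, ∀ (ε : ℝ) (K C2 : ℕ), 0 < ε → ∃ B0 : ℕ,
  ∀ B : ℕ, B0 ≤ B → ∀ T : ℕ, (B : ℝ) ≤ (T : ℝ) ^ G.natDegree * Real.log B ^ C2 → T ^ G.natDegree ≤ K * B →
  (T : ℝ) * Real.log B ^ C1 ≤ B →
  ∑ b ∈ Icc 1 B, |∑ t ∈ Icc 1 T, lam (fp G b c t)| ≤ ε * ((B : ℝ) * T)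

end

end Pool.Agent.N728.QG
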