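import Pool.Agent.N426.QL.ORB
import Pool.Agent.N40.QL.EK
import Pool.Agent.N40.QL.MER
import Pool.Agent.N136.QL.FLC
import Pool.Agent.N547.QL.QBA
import Pool.Agent.N691.QL.PS
import Pool.Agent.N403.QL.BVH
import Pool.Agent.N340.QL.HZ
import Pool.Agent.N728.QG.Def
import Pool.Agent.N547.QG.U1
import Pool.Agent.N547.QG.U0
import Pool.Agent.N547.QG.UU
import Pool.Agent.N134.QG.BAD
import Pool.Agent.N27.QG.DS
import Pool.Agent.N755.QG.RNG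
import Pool.Agent.N545.QG.CORE
import Pool.Agent.N769.QG.DIA
import Pool.Agent.N559.QG.GVN
import Pool.Agent.N700.QG.FLC
import Pool.Agent.N273.QG.FLB
import Pool.Agent.N323.QG.AVG
import Pool.Agent.N545.QG.BOX
import Pool.Agent.N402.QG.OFF
import Pool.Agent.N169.QG.WI
import Pool.Agent.N690.QG.WEY
import Pool.Agent.N855.QG.SP
import Pool.Agent.N434.QG.AL
import Pool.Agent.N531.QG.AP
import Pool.Agent.N769.QG.QB
import Pool.Agent.N271.QG.B2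
import Pool.Agent.N769.QG.SM
import Pool.Agent.N97.QG.B4P
import Pool.Agent.N403.QG.BVL
import Pool.Agent.N707.QG.B4L
import Pool.Agent.N614.QG.BC
import Pool.Agent.N564.QG.MCP
import Pool.Agent.N362.QG.MCL
import Pool.Agent.N878.QG.LOC
import Pool.Agent.N170.QG.AVS
import Pool.Agent.N279.QG.FINP
import Pool.Agent.N27.QG.FINL

set_option autoImplicit false

/-! # Project QG: assembly -/

namespace Pool.Agent.N728.QG

open Pool.Agent.N728.QL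

theorem aMER : S_MER := Pool.Agent.N40.QL.t_MER
theorem aPS : S_PS := fun q A hq => Pool.Agent.N691.QL.ps0 Pool.Agent.N403.QL.t_BVH q A hq

theorem aU1 : ∀ c : ℤ, c ≠ 0 → Pool.Agent.N728.QG.S_U1 c := Pool.Agent.N547.QG.t_U1 Pool.Agent.N136.QL.t_FLC aMER
theorem aU0 : ∀ c : ℤ, c ≠ 0 → Pool.Agent.N728.QG.S_U0 c := Pool.Agent.N547.QG.t_U0 Pool.Agent.N136.QL.t_FLC aMER
theorem aUU : S_UU := Pool.Agent.N547.QG.t_UU Pool.Agent.N136.QL.t_FLC aMER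
theorem aBAD : Pool.Agent.N728.QG.S_BAD := Pool.Agent.N134.QG.t_BAD aMER
theorem aDS : Pool.Agent.N728.QG.S_DS := Pool.Agent.N27.QG.t_DS aMER
theorem aRNG : S_RNG := Pool.Agent.N755.QG.t_RNG
theorem aEEB : S_EEB := Pool.Agent.N755.QG.t_EEB aMER
theorem aCORE : S_CORE := Pool.Agent.N545.QG.t_CORE Pool.Agent.N426.QL.t_ORB Pool.Agent.N40.QL.t_EK aBAD aRNG
theorem aDIA : S_DIA := Pool.Agent.N769.QG.t_DIA aRNG
theorem aFLB : Pool.Agent.N728.QG.S_FLB := Pool.Agent.N273.QG.t_FLB Pool.Agent.N700.QG.t_FLC aMER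
theorem aBOX : Pool.Agent.N728.QG.S_BOX := Pool.Agent.N545.QG.t_BOX aFLB (Pool.Agent.N323.QG.t_AVG aMER) aMER
theorem aOFF : ∀ (G : Polynomial ℤ) (c : ℤ), 1 ≤ G.natDegree → c ≠ 0 → Pool.Agent.N728.QG.S_OFF G c :=
  Pool.Agent.N402.QG.t_OFF Pool.Agent.N559.QG.t_GVN aBOX aMER
theorem aSP : ∀ G : Polynomial ℤ, 1 ≤ G.natDegree → Pool.Agent.N728.QG.S_SP G :=
  Pool.Agent.N855.QG.t_SP (Pool.Agent.N690.QG.t_WEY Pool.Agent.N169.QG.t_WI)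
theorem aAL : ∀ G : Polynomial ℤ, 1 ≤ G.natDegree → S_AL G := Pool.Agent.N434.QG.t_AL aCORE aDIA aUU aRNG aSP aMER
theorem aAP : ∀ (G : Polynomial ℤ) (c : ℤ), 1 ≤ G.natDegree → c ≠ 0 → S_AP G c :=
  Pool.Agent.N531.QG.t_AP aCORE aDIA aEEB aU0 aU1 aRNG aOFF aSP aMER
theorem aQB : Pool.Agent.N728.QG.S_QB := Pool.Agent.N769.QG.t_QB (Pool.Agent.N547.QL.t_QBA aMER) aPS aMER
theorem aB2 : Pool.Agent.N728.QG.S_B2 := Pool.Agent.N271.QG.t_B2 aCORE aRNG aDS aQB Pool.Agent.N40.QL.t_EK aMER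
theorem aBC : ∀ G : Polynomial ℤ, 1 ≤ G.natDegree → Pool.Agent.N728.QG.S_BC G :=
  Pool.Agent.N614.QG.t_BC Pool.Agent.N769.QG.t_SM aB2
theorem aHZ : S_HZ := Pool.Agent.N340.QL.t_HZ aMER
theorem aB4P : ∀ c : ℤ, c ≠ 0 → S_B4P c := Pool.Agent.N97.QG.t_B4P Pool.Agent.N403.QL.t_BVH aHZ aMER
theorem aB4L : ∀ c : ℤ, c ≠ 0 → S_B4L c := Pool.Agent.N707.QG.t_B4L Pool.Agent.N403.QG.t_BVL
theorem aMCP : ∀ (G : Polynomial ℤ) (c : ℤ), 1 ≤ G.natDegree → c ≠ 0 → S_MCP G c :=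
  Pool.Agent.N564.QG.t_MCP aAP aBC aB4P aEEB aU0 aU1 aMER
theorem aMCL : ∀ (G : Polynomial ℤ) (c : ℤ), 1 ≤ G.natDegree → c ≠ 0 → S_MCL G c :=
  Pool.Agent.N362.QG.t_MCL aAL aBC aB4L aUU

/-- primes -/
theorem finalP (G : Polynomial ℤ) (c : ℤ) (hd : 2 ≤ G.natDegree) (hl : 0 < G.leadingCoeff) (hc : c ≠ 0) :
    FinalP G c :=
  Pool.Agent.N279.QG.t_FINP G c hd hl hc (aMCP G c (by omega) hc) Pool.Agent.N878.QG.t_LOC Pool.Agent.N170.QG.t_AVS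
    Pool.Agent.N170.QG.t_TLS aMER

/-- Liouville -/
theorem finalL (G : Polynomial ℤ) (c : ℤ) (hd : 1 ≤ G.natDegree) (hl : 0 < G.leadingCoeff) (hc : c ≠ 0) :
    FinalL G c :=
  Pool.Agent.N27.QG.t_FINL G c hd hl (aMCL G c hd hc)

end Pool.Agent.N728.QG
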