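import Pool.Agent.N728.QG.All
import Pool.Agent.N728.QG.Def2
import Pool.Agent.N849.QH.ORBS
import Pool.Agent.N887.QH.DSS
import Pool.Agent.N749.QH.RGH
import Pool.Agent.N73.QH.SHB
import Pool.Agent.N80.QH.SH
import Pool.Agent.N568.QH.H4P
import Pool.Agent.N475.QH.H4L
import Pool.Agent.N402.QH.OFF2
import Pool.Agent.N87.QH.AP2
import Pool.Agent.N8.QH.BC2
import Pool.Agent.N427.QH.MCP2
import Pool.Agent.N407.QH.MCL2
import Pool.Agent.N49.QH.FINL2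
import Pool.Agent.N362.QH.FIN2
import Pool.Agent.N82.QH.FXY
import Pool.Agent.N314.QN.CST
import Pool.Agent.N401.QL.CST
import Pool.Agent.N92.QL.LOC

set_option autoImplicit false

/-! # Project QH: assembly -/

namespace Pool.Agent.N728.QG

open Pool.Agent.N728.QL

theorem aORBS : S_ORBS := Pool.Agent.N849.QH.t_ORBS
theorem aDSS : S_DSS := Pool.Agent.N887.QH.t_DSS aMER
theorem aRGH : S_RGH := Pool.Agent.N749.QH.t_RGH Pool.Agent.N136.QL.t_FLC aMER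
theorem aSHB : S_SHB := Pool.Agent.N73.QH.t_SHB (Pool.Agent.N547.QL.t_QBA aMER) aPS aMER aRGH
theorem aSH : S_SH := Pool.Agent.N80.QH.t_SH aORBS Pool.Agent.N40.QL.t_EK aBAD aRNG aDSS aSHB aMER
theorem aH4P : ∀ c : ℤ, c ≠ 0 → S_H4P c := Pool.Agent.N568.QH.t_H4P aSH aB4P aEEB aU0 aU1 aMER
theorem aH4L : ∀ c : ℤ, c ≠ 0 → S_H4L c := Pool.Agent.N475.QH.t_H4L aSH aB4L aUU
theorem aOFF2 : ∀ (G : Polynomial ℤ) (c : ℤ), 1 ≤ G.natDegree → c ≠ 0 → S_OFF2 G c :=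
  Pool.Agent.N402.QH.t_OFF2 Pool.Agent.N559.QG.t_GVN aBOX aMER
theorem aAP2 : ∀ (G : Polynomial ℤ) (c : ℤ), 1 ≤ G.natDegree → c ≠ 0 → S_AP2 G c :=
  Pool.Agent.N87.QH.t_AP2 aCORE aDIA aEEB aU0 aU1 aRNG aOFF2 aSP aMER
theorem aBC2 : ∀ G : Polynomial ℤ, 1 ≤ G.natDegree → S_BC2 G := Pool.Agent.N8.QH.t_BC2 Pool.Agent.N769.QG.t_SM aB2
theorem aMCP2 : ∀ (G : Polynomial ℤ) (c : ℤ), 1 ≤ G.natDegree → c ≠ 0 → S_MCP2 G c :=
  Pool.Agent.N427.QH.t_MCP2 aAP2 aBC2 aH4P aEEB aU0 aU1 aMER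
theorem aMCL2 : ∀ (G : Polynomial ℤ) (c : ℤ), 1 ≤ G.natDegree → c ≠ 0 → S_MCL2 G c :=
  Pool.Agent.N407.QH.t_MCL2 aAL aBC2 aH4L aUU

/-- the Liouville function, all degrees, full range -/
theorem finalL2 (G : Polynomial ℤ) (c : ℤ) (hd : 1 ≤ G.natDegree) (hl : 0 < G.leadingCoeff) (hc : c ≠ 0) :
    FinalL2 G c :=
  Pool.Agent.N49.QH.t_FINL2 G c hd hl (aMCL2 G c hd hc)

/-- primes, degree 2, full range -/
theorem final2 (a c : ℤ) (ha : 0 < a) (hc : c ≠ 0) : Final2 a c :=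
  Pool.Agent.N362.QH.t_FIN2 a c ha hc (aMCP2 (Polynomial.C a * Polynomial.X) c
    (by rw [Polynomial.natDegree_C_mul_X a ha.ne']) hc) Pool.Agent.N92.QL.t_LOC (Pool.Agent.N401.QL.t_CST a c ha hc)
    aMER

/-- `x y + c` along `x + y = n` -/
theorem finalXY (c : ℤ) (hc : c ≠ 0) : FinalXY c :=
  Pool.Agent.N82.QH.t_FXY c hc (aMCP2 (-Polynomial.X) c (by rw [Polynomial.natDegree_neg, Polynomial.natDegree_X]) hc)
    Pool.Agent.N92.QL.t_LOC (Pool.Agent.N314.QN.t_CSTN (-1) c (by norm_num) hc) aMER aU0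

end Pool.Agent.N728.QG
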