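import Pool.Agent.N728.QG.All

set_option autoImplicit false

/-!
# Quantitative Hypothesis H for almost all linear coefficients

Fix an integer polynomial `g` of degree `d ≥ 3` with positive leading coefficient and `g(0) ≠ 0`. For almost all integers
`1 ≤ b ≤ B` the polynomial `f(t) = g(t) + b t` has the number of prime values, `t ≤ T`, predicted by Bateman and Horn,
for all `T` with `B / (log B)^C₂ ≤ T^(d-1) ≤ K B`. Only the linear coefficient varies.

Proof (`Agent/N728/QG`, general degree version of `Agent/N728/QL`): `f(t) = u v + c` with `u = t`, `c = g(0)` and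
`v = b + G(t)`, `g = X G + c`. A bounded function of `b = v - G(u)` is correlated with (primes minus sieve model) at
`u v + c`. Such a sum does not change if a divisor of `u v`, composed of primes of a suitable range, is moved from `u` to
`v`; by the multiplication table phenomenon of Erdős few multiplicative windows contain such a divisor. The off-diagonal
terms are bounded by `d` applications of the Cauchy-Schwarz inequality and the fundamental lemma of the sieve for `2^d`
linear forms, and by Weyl's inverse theorem (functions with mean zero on the cells class times block), and by the prime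
number theorem for the moved divisors and the theorem of Bombieri and Vinogradov (functions constant on the cells).
-/

namespace Pool.Agent.N728.QG.Draft

open Finset

/-- The polynomial `f(t) = g(t) + b t`. -/
def f (g : Polynomial ℤ) (b : ℤ) (t : ℕ) : ℤ := g.eval (t : ℤ) + b * t

/-- `ω_f(p)`, the number of zeros of `f` modulo `p`. -/
def omega (g : Polynomial ℤ) (b : ℤ) (p : ℕ) : ℕ := ((range p).filter (fun t : ℕ => (p : ℤ) ∣ f g b t)).card

/-- `C_f(z)`, the product which defines `C_f`, over the primes `p ≤ z`. -/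
noncomputable def eulerProd (g : Polynomial ℤ) (b : ℤ) (z : ℕ) : ℝ :=
  ∏ p ∈ (Ioc 0 z).filter Nat.Prime, (1 - (omega g b p : ℝ) / p) / (1 - 1 / (p : ℝ))

/-- The number of the `1 ≤ t ≤ T` for which `f(t)` is a (positive) prime. -/
def primeCount (g : Polynomial ℤ) (b : ℤ) (T : ℕ) : ℕ := ((Icc 1 T).filter (fun t : ℕ => (f g b t).toNat.Prime)).card

/-- The sum of `1 / log f(t)` over the `1 ≤ t ≤ T` with `f(t) ≥ 2`. -/
noncomputable def logSum (g : Polynomial ℤ) (b : ℤ) (T : ℕ) : ℝ :=
  ∑ t ∈ (Icc 1 T).filter (fun t : ℕ => 2 ≤ f g b t), 1 / Real.log ((f g b t : ℤ) : ℝ)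

/-- The conclusion for one linear coefficient `b`. -/
def Good (g : Polynomial ℤ) (ε : ℝ) (T Z : ℕ) (b : ℤ) : Prop :=
  |(primeCount g b T : ℝ) - eulerProd g b Z * logSum g b T| ≤ ε * (T / Real.log T)

open Classical in
/-- The number of the integers `1 ≤ b ≤ B` for which the conclusion fails. -/
noncomputable def exceptions (g : Polynomial ℤ) (ε : ℝ) (B T Z : ℕ) : ℕ :=
  ((Icc 1 B).filter (fun b : ℕ => ¬ Good g ε T Z b)).card

lemma f_eq (g : Polynomial ℤ) (b : ℤ) (t : ℕ) : f g b t = Pool.Agent.N728.QG.fp g.divX b (g.coeff 0) t := by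
  unfold f Pool.Agent.N728.QG.fp
  have h := congrArg (Polynomial.eval (t : ℤ)) (Polynomial.divX_mul_X_add g)
  rw [Polynomial.eval_add, Polynomial.eval_mul, Polynomial.eval_X, Polynomial.eval_C] at h
  rw [← h]
  ring

theorem result (g : Polynomial ℤ) (hd : 3 ≤ g.natDegree) (hl : 0 < g.leadingCoeff) (h0 : g.coeff 0 ≠ 0) :
    ∀ (ε : ℝ) (K C₂ : ℕ), 0 < ε → ∃ z₀ : ℕ, ∀ A : ℕ, ∃ B₀ : ℕ, ∀ B : ℕ, B₀ ≤ B → ∀ T Z : ℕ,
      (B : ℝ) ≤ (T : ℝ) ^ (g.natDegree - 1) * Real.log B ^ C₂ → T ^ (g.natDegree - 1) ≤ K * B →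
      z₀ ≤ Z → (Z : ℝ) ≤ Real.log B ^ A → (exceptions g ε B T Z : ℝ) ≤ ε * B := by
  classical
  intro ε K C₂ hε
  have hdeg : g.divX.natDegree = g.natDegree - 1 := Polynomial.natDegree_divX_eq_natDegree_tsub_one
  have hlead : g.divX.leadingCoeff = g.leadingCoeff := by
    unfold Polynomial.leadingCoeff
    rw [hdeg, Polynomial.coeff_divX]
    congr 1
    omega
  have h := Pool.Agent.N728.QG.finalP g.divX (g.coeff 0) (by omega) (by rw [hlead]; exact hl) h0 ε K C₂ hε
  rw [hdeg] at h
  obtain ⟨z₀, h1⟩ := h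
  refine ⟨z₀, fun A => ?_⟩
  obtain ⟨B₀, h2⟩ := h1 A
  refine ⟨B₀, fun B hB T Z hT1 hT2 hZ1 hZ2 => ?_⟩
  have h3 := h2 B hB T Z hT1 hT2 hZ1 hZ2
  refine le_trans (le_of_eq ?_) h3
  unfold exceptions
  congr 2
  apply filter_congr
  intro b _
  unfold Good primeCount eulerProd logSum omega Pool.Agent.N728.QG.cnt Pool.Agent.N728.QG.Sg Pool.Agent.N728.QG.om
  simp only [f_eq]

end Pool.Agent.N728.QG.Draft
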