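import Pool.Agent.N728.QG.All2

set_option autoImplicit false

/-! # Drafts of the results of project QH (tests of the bridges) -/

namespace Pool.Agent.N728.QG.Draft2

open Finset Filter Topology

/-- The polynomial. -/
def f (a b c : ℤ) (t : ℕ) : ℤ := a * (t : ℤ) ^ 2 + b * t + c

/-- The triple `(a, b, c)`, `a > 0`, is admissible. -/
def Admissible (a b c : ℤ) : Prop :=
  Int.gcd (Int.gcd a b : ℤ) c = 1 ∧ ¬ (Even (a + b) ∧ Even c) ∧ ¬ IsSquare (b ^ 2 - 4 * a * c)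

/-- The products which define `C(a, b, c)`, over the primes `p ≤ z` (`jacobiSym Δ p` is the Legendre symbol). -/
noncomputable def partialC (a b c : ℤ) (z : ℕ) : ℝ :=
  (if Odd (a + b) then 1 / 2 else 1) *
    (∏ p ∈ (Icc 3 z).filter (fun p : ℕ => p.Prime ∧ (p : ℤ) ∣ a ∧ (p : ℤ) ∣ b), (p : ℝ) / (p - 1)) *
    ∏ p ∈ (Icc 3 z).filter (fun p : ℕ => p.Prime ∧ ¬ (p : ℤ) ∣ a),
      (1 - (jacobiSym (b ^ 2 - 4 * a * c) p : ℝ) / (p - 1))

/-- `K = C(a, b, c)`: the products over the primes, in increasing order, converge to `K`. -/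
def IsC (a b c : ℤ) (K : ℝ) : Prop := Tendsto (partialC a b c) atTop (𝓝 K)

/-- `π_f(y)`. -/
def count (a b c : ℤ) (y : ℕ) : ℕ := ((Icc 1 y).filter (fun t : ℕ => (f a b c t).toNat.Prime)).card

/-- The conclusion for one linear coefficient `b`. -/
def Good (a c : ℤ) (ε : ℝ) (T : ℕ) (b : ℤ) : Prop :=
  ∃ K : ℝ, IsC a b c K ∧
    |(count a b c T : ℝ) - 2 * K * ∑ t ∈ Icc 1 T, 1 / Real.log ((f a b c t : ℤ) : ℝ)| ≤ ε * (T / Real.log T)

open Classical in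
/-- The number of the integers `1 ≤ b ≤ B` for which `(a, b, c)` is admissible and the conclusion fails. -/
noncomputable def exceptions (a c : ℤ) (ε : ℝ) (B T : ℕ) : ℕ :=
  ((Icc 1 B).filter (fun b : ℕ => Admissible a b c ∧ ¬ Good a c ε T b)).card

theorem result (a c : ℤ) (ha : 0 < a) (hc : c ≠ 0) :
    ∀ (ε : ℝ) (K C₂ : ℕ), 0 < ε → ∃ B₀ : ℕ, ∀ B : ℕ, B₀ ≤ B → ∀ T : ℕ,
      (B : ℝ) ≤ T * Real.log B ^ C₂ → T ≤ K * B → (exceptions a c ε B T : ℝ) ≤ ε * B := by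
  classical
  intro ε K C₂ hε
  obtain ⟨B₀, h0⟩ := Pool.Agent.N728.QG.final2 a c ha hc ε K C₂ hε
  refine ⟨B₀, fun B hB T h1 h2 => ?_⟩
  have h3 := h0 B hB T h1 h2
  refine le_trans (le_of_eq ?_) h3
  unfold exceptions
  congr!

end Pool.Agent.N728.QG.Draft2
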