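import Pool.Agent.N728.QG.All2

set_option autoImplicit false

/-!
# Chowla's conjecture for polynomials, almost all linear coefficients
-/

namespace Pool.Agent.N728.QG.Draft3

open Finset

/-- The Liouville function of `|n|`; its value at `0` is `0`. -/
noncomputable def liouville (n : ℤ) : ℝ := if n = 0 then 0 else (-1) ^ (ArithmeticFunction.cardFactors n.natAbs)

/-- The polynomial `f(t) = g(t) + b t`. -/
def f (g : Polynomial ℤ) (b : ℤ) (t : ℕ) : ℤ := g.eval (t : ℤ) + b * t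

lemma f_eq (g : Polynomial ℤ) (b : ℤ) (t : ℕ) : f g b t = Pool.Agent.N728.QG.fp g.divX b (g.coeff 0) t := by
  unfold f Pool.Agent.N728.QG.fp
  have h := congrArg (Polynomial.eval (t : ℤ)) (Polynomial.divX_mul_X_add g)
  rw [Polynomial.eval_add, Polynomial.eval_mul, Polynomial.eval_X, Polynomial.eval_C] at h
  rw [← h]
  ring

theorem result (g : Polynomial ℤ) (hd : 2 ≤ g.natDegree) (hl : 0 < g.leadingCoeff) (h0 : g.coeff 0 ≠ 0) :
    ∀ (ε : ℝ) (K C₂ : ℕ), 0 < ε → ∃ B₀ : ℕ, ∀ B : ℕ, B₀ ≤ B → ∀ T : ℕ,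
      (B : ℝ) ≤ (T : ℝ) ^ (g.natDegree - 1) * Real.log B ^ C₂ → T ^ (g.natDegree - 1) ≤ K * B →
      ∑ b ∈ Icc 1 B, |∑ t ∈ Icc 1 T, liouville (f g b t)| ≤ ε * ((B : ℝ) * T) := by
  intro ε K C₂ hε
  have hdeg : g.divX.natDegree = g.natDegree - 1 := Polynomial.natDegree_divX_eq_natDegree_tsub_one
  have hlead : g.divX.leadingCoeff = g.leadingCoeff := by
    unfold Polynomial.leadingCoeff
    rw [hdeg, Polynomial.coeff_divX]
    congr 1
    omega
  have h := Pool.Agent.N728.QG.finalL2 g.divX (g.coeff 0) (by omega) (by rw [hlead]; exact hl) h0 ε K C₂ hε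
  rw [hdeg] at h
  obtain ⟨B₀, h1⟩ := h
  refine ⟨B₀, fun B hB T hT1 hT2 => ?_⟩
  have h3 := h1 B hB T hT1 hT2
  refine le_trans (le_of_eq ?_) h3
  apply sum_congr rfl
  intro b _
  congr 1
  apply sum_congr rfl
  intro t _
  rw [f_eq]
  rfl

end Pool.Agent.N728.QG.Draft3
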