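import Pool.Agent.N728.QG.All2

set_option autoImplicit false

/-!
# The number of `x + y = n` with `x y + c` prime, for almost all `n`
-/

namespace Pool.Agent.N728.QG.Draft4

open Finset Filter Topology

/-- The products which define the constant `C(A, β, c)` of Hardy and Littlewood for `A x² + β x + c`, over the primes
`p ≤ z` (`jacobiSym Δ p` is the Legendre symbol). -/
noncomputable def partialC (A β c : ℤ) (z : ℕ) : ℝ :=
  (if Odd (A + β) then 1 / 2 else 1) *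
    (∏ p ∈ (Icc 3 z).filter (fun p : ℕ => p.Prime ∧ (p : ℤ) ∣ A ∧ (p : ℤ) ∣ β), (p : ℝ) / (p - 1)) *
    ∏ p ∈ (Icc 3 z).filter (fun p : ℕ => p.Prime ∧ ¬ (p : ℤ) ∣ A),
      (1 - (jacobiSym (β ^ 2 - 4 * A * c) p : ℝ) / (p - 1))

/-- `K = C(A, β, c)`: the products over the primes, in increasing order, converge to `K`. -/
def IsC (A β c : ℤ) (K : ℝ) : Prop := Tendsto (partialC A β c) atTop (𝓝 K)

/-- The number of the pairs `x, y ≥ 1` with `x + y = n` and `x y + c` a (positive) prime. -/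
def rep (c : ℤ) (n : ℕ) : ℕ :=
  ((Icc 1 n ×ˢ Icc 1 n).filter (fun q : ℕ × ℕ => q.1 + q.2 = n ∧ ((q.1 : ℤ) * q.2 + c).toNat.Prime)).card

/-- The conclusion for one `n`. -/
def Good (c : ℤ) (κ δ : ℝ) (n : ℕ) : Prop :=
  ∃ K : ℝ, IsC (-1) n c K ∧ κ ≤ K ∧ |(rep c n : ℝ) - K * (n / Real.log n)| ≤ δ * (n / Real.log n)

open Classical in
/-- The number of the `n ≤ N` without obstruction modulo 2 (`n` even or `c` odd) for which the conclusion fails. -/
noncomputable def exceptions (c : ℤ) (κ δ : ℝ) (N : ℕ) : ℕ :=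
  ((Icc 1 N).filter (fun n : ℕ => (Even n ∨ Odd c) ∧ ¬ Good c κ δ n)).card

lemma rep_eq (c : ℤ) (n : ℕ) : rep c n = Pool.Agent.N728.QG.rxy c n := by
  unfold rep Pool.Agent.N728.QG.rxy
  refine card_bij' (fun q _ => q.1) (fun x _ => (x, n - x)) ?_ ?_ ?_ ?_
  · rintro ⟨x, y⟩ h
    rw [mem_filter, mem_product, mem_Icc, mem_Icc] at h
    obtain ⟨⟨h1, h2⟩, h3, h4⟩ := h
    simp only at h1 h2 h3 h4
    rw [mem_filter, mem_Ico]
    refine ⟨⟨h1.1, by omega⟩, ?_⟩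
    have h5 : (y : ℤ) = (n : ℤ) - x := by omega
    rw [← h5]
    exact h4
  · intro x h
    rw [mem_filter, mem_Ico] at h
    obtain ⟨⟨h1, h2⟩, h3⟩ := h
    rw [mem_filter, mem_product, mem_Icc, mem_Icc]
    refine ⟨⟨⟨h1, by simp only; omega⟩, ⟨by simp only; omega, by simp only; omega⟩⟩, by simp only; omega, ?_⟩
    have h5 : ((n - x : ℕ) : ℤ) = (n : ℤ) - x := by omega
    simp only
    rw [h5]
    exact h3
  · rintro ⟨x, y⟩ h
    rw [mem_filter] at h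
    have h1 := h.2.1
    simp only at h1
    simp only [Prod.mk.injEq, true_and]
    omega
  · intro x _
    rfl

theorem result (c : ℤ) (hc : c ≠ 0) :
    ∀ ε : ℝ, 0 < ε → ∃ κ : ℝ, 0 < κ ∧ ∀ δ : ℝ, 0 < δ → ∃ N₀ : ℕ, ∀ N : ℕ, N₀ ≤ N →
      (exceptions c κ δ N : ℝ) ≤ ε * N := by
  classical
  intro ε hε
  obtain ⟨κ, hκ, h⟩ := Pool.Agent.N728.QG.finalXY c hc ε hε
  refine ⟨κ, hκ, fun δ hδ => ?_⟩
  obtain ⟨N₀, h⟩ := h δ hδ
  refine ⟨N₀, fun N hN => ?_⟩
  refine le_trans (le_of_eq ?_) (h N hN)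
  unfold exceptions Good
  simp only [rep_eq]
  congr!

end Pool.Agent.N728.QG.Draft4
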